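import Pool.Agent.MP_3ce0a0_al.H79.XS

/-
The even part vanishes when the fixed subgraph of the total sign change has cage shape.
-/

namespace Pool.Agent.MP_3ce0a0_al.H39

open Equiv Module Finset Pool.Agent.MP_3ce0a0_al.H62.Inst Pool.Agent.MP_3ce0a0_al.H79.X

section grp
variable {ι : Type}

lemma cage_opt (σ : Perm ι) : cage (Equiv.optionCongr σ) = pm σ :=
  aut_ext fun c => by simp [cage_of, zz]

lemma fresh [Fintype ι] (l : List ι) (h : l.length < Fintype.card ι) : ∃ x, x ∉ l := by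
  classical
  by_contra k
  have k' : ∀ x, x ∈ l := fun x => by
    by_contra e
    exact k ⟨x, e⟩
  have : (univ : Finset ι) ⊆ l.toFinset := fun x _ => List.mem_toFinset.2 (k' x)
  have := (card_le_card this).trans (List.toFinset_card_le l)
  rw [card_univ] at this
  omega

variable [DecidableEq ι]

lemma e_sq (a : ι) : ep a * ep a = 1 := (N0 ι).ε_sq a

lemma e_comm (a b : ι) : ep a * ep b = ep b * ep a := (N0 ι).ε_comm a b

lemma p_e (σ : Perm ι) (a : ι) : pm σ * ep a = ep (σ a) * pm σ := (N0 ι).π_ε σ a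

lemma J_sq (J : Finset ι) : epJ J * epJ J = 1 :=
  aut_ext fun c => by by_cases h : c ∈ J <;> simp [epJ_of, h]

lemma J_e (J : Finset ι) (a : ι) : epJ J * ep a = ep a * epJ J :=
  aut_ext fun c => by
    by_cases h : c ∈ J <;> by_cases k : c = a <;> simp_all [epJ_of, ep_of]

lemma J_ins {a : ι} {J : Finset ι} (h : a ∉ J) : epJ (insert a J) = ep a * epJ J :=
  aut_ext fun c => by
    by_cases h : c ∈ J <;> by_cases k : c = a <;> simp_all [epJ_of, ep_of]

lemma J_emp : epJ (∅ : Finset ι) = 1 := aut_ext fun c => by simp [epJ_of]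

lemma J_even (K : Subgroup (A ι)) (S : Finset ι)
    (h : ∀ a ∈ S, ∀ b ∈ S, a ≠ b → ep a * ep b ∈ K) (k : ℕ) :
    ∀ J ⊆ S, J.card = 2 * k → epJ J ∈ K := by
  induction k with
  | zero =>
    intro J _ e
    rw [card_eq_zero.1 e, J_emp]
    exact one_mem _
  | succ k ih =>
    intro J hJ e
    obtain ⟨a, ha, b, hb, ab⟩ := one_lt_card.1 (show 1 < J.card by omega)
    have hb' : b ∈ J.erase a := mem_erase.2 ⟨ab.symm, hb⟩
    rw [← insert_erase ha, J_ins (notMem_erase _ _), ← insert_erase hb', J_ins (notMem_erase _ _),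
      ← mul_assoc]
    refine mul_mem (h a (hJ ha) b (hJ hb) ab) (ih _ ?_ ?_)
    · exact ((erase_subset _ _).trans (erase_subset _ _)).trans hJ
    · rw [card_erase_of_mem hb', card_erase_of_mem ha]
      omega

end grp

section lin
variable {H : Type} [AddCommGroup H] [Module ℂ H]

lemma indep_eq {κ : Type} {P : κ → Submodule ℂ H} (h : iSupIndep P) {i j : κ} {v : H}
    (hv : v ≠ 0) (hi : v ∈ P i) (hj : v ∈ P j) : i = j := by
  by_contra e
  exact hv (Submodule.disjoint_def.1 (h.pairwiseDisjoint e) v hi hj)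

lemma cut {κ : Type} [Fintype κ] {P : κ → Submodule ℂ H} (h : iSupIndep P) {u : H}
    (hu : u ∈ ⨆ k, P k) (Q : Submodule ℂ H)
    (hQ : ∀ k, P k ≤ Q ∨ u ∈ ⨆ j, ⨆ (_ : j ≠ k), P j) : u ∈ Q := by
  classical
  obtain ⟨μ, hμ, e⟩ := (Submodule.mem_iSup_iff_exists_finsupp P u).1 hu
  rw [Finsupp.sum_fintype _ _ (fun _ => rfl)] at e
  rw [← e]
  refine Q.sum_mem fun k _ => ?_
  rcases hQ k with l | l
  · exact l (hμ k)
  · have : μ k = u - ∑ j ∈ univ.erase k, μ j := by
      rw [← e, ← add_sum_erase _ _ (mem_univ k), add_sub_cancel_right]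
    have z : μ k = 0 := Submodule.disjoint_def.1 (h k) _ (hμ k) (by
      rw [this]
      refine Submodule.sub_mem _ l (Submodule.sum_mem _ fun j hj => ?_)
      exact Submodule.mem_iSup_of_mem j (Submodule.mem_iSup_of_mem (ne_of_mem_erase hj) (hμ j)))
    rw [z]
    exact zero_mem _

lemma rank_sup_le {κ : Type} [Fintype κ] [FiniteDimensional ℂ H] (P : κ → Submodule ℂ H) :
    finrank ℂ (⨆ k, P k : Submodule ℂ H) ≤ ∑ k, finrank ℂ (P k) := by
  classical
  rw [← DirectSum.range_coeLinearMap, ← Module.finrank_directSum]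
  exact LinearMap.finrank_range_le _

lemma tr_scalar [FiniteDimensional ℂ H] {f : End ℂ H} {Q : Submodule ℂ H} {c : ℂ}
    (e : ∀ v ∈ Q, f v = c • v) : trOn f Q = c * finrank ℂ Q := by
  have k : ∀ v ∈ Q, f v ∈ Q := fun v hv => by
    rw [e v hv]
    exact Q.smul_mem c hv
  have : f.restrict k = c • (1 : End ℂ Q) := LinearMap.ext fun v => Subtype.ext (e v.1 v.2)
  rw [trOn, dif_pos k, this, map_smul, LinearMap.trace_one, smul_eq_mul]

variable {O : Type} [Group O] {π : O →* End ℂ H} (G : Geo π)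

lemma unit_ne (y : O) {v : H} (hv : v ≠ 0) : π y v ≠ 0 := fun e => hv (by
  have : π (y⁻¹ * y) v = 0 := by rw [map_mul, End.mul_apply, e, map_zero]
  rwa [inv_mul_cancel, map_one] at this)

lemma om_eq {g : O} (h : iSupIndep fun x : {x // G.ov x = g} => G.Φ x.1) {x y : G.Ω}
    (hx : G.ov x = g) (hy : G.ov y = g) {v : H} (hv : v ≠ 0) (vx : v ∈ G.Φ x) (vy : v ∈ G.Φ y) :
    x = y :=
  congrArg Subtype.val (indep_eq h (i := ⟨x, hx⟩) (j := ⟨y, hy⟩) hv vx vy)

lemma om_zero {g : O} (h : iSupIndep fun x : {x // G.ov x = g} => G.Φ x.1) {κ : Type}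
    {P : κ → Submodule ℂ H} {w : κ → G.Ω} (hw : ∀ i, G.ov (w i) = g ∧ P i ≤ G.Φ (w i))
    {Y : G.Ω} (hY : G.ov Y = g) {v : H} (vY : v ∈ G.Φ Y)
    (hv : v ∈ ⨆ k, ⨆ (_ : w k ≠ Y), P k) : v = 0 := by
  refine Submodule.disjoint_def.1 (h ⟨Y, hY⟩) v vY ?_
  refine SetLike.le_def.1 (iSup₂_le fun k hk => ?_) hv
  exact (hw k).2.trans (le_iSup₂_of_le (f := fun (x : {x // G.ov x = g})
    (_ : x ≠ ⟨Y, hY⟩) => G.Φ x.1) ⟨w k, (hw k).1⟩ (fun e => hk (congrArg Subtype.val e)) le_rfl)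

lemma noj {g : O} (h : iSupIndep fun x : {x // G.ov x = g} => G.Φ x.1) {κ : Type}
    {P : κ → Submodule ℂ H} {w : κ → G.Ω} (hw : ∀ i, G.ov (w i) = g ∧ P i ≤ G.Φ (w i))
    {i j : κ} (ij : w j ≠ w i) {u : H} (ui : u ∈ G.Φ (w i)) (hu : u ∈ ⨆ k, P k) :
    u ∈ ⨆ k, ⨆ (_ : k ≠ j), P k := by
  have le : (⨆ k, P k) ≤ (⨆ k, ⨆ (_ : w k = w i), P k) ⊔ ⨆ k, ⨆ (_ : w k ≠ w i), P k :=
    iSup_le fun k => by
      by_cases e : w k = w i
      · exact le_sup_of_le_left (le_iSup₂_of_le (f := fun k (_ : w k = w i) => P k) k e le_rfl)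
      · exact le_sup_of_le_right (le_iSup₂_of_le (f := fun k (_ : w k ≠ w i) => P k) k e le_rfl)
  obtain ⟨p, hp, p', hp', e⟩ := Submodule.mem_sup.1 (le hu)
  have pY : p ∈ G.Φ (w i) := (iSup₂_le fun k hk => hk ▸ (hw k).2 : _ ≤ G.Φ (w i)) hp
  have z : p' = 0 := om_zero G h hw (hw i).1 (by
    rw [← add_sub_cancel_left p p', e]
    exact Submodule.sub_mem _ ui pY) hp'
  rw [← e, z, add_zero]
  refine SetLike.le_def.1 (iSup₂_le fun k hk => ?_) hp
  exact le_iSup₂_of_le (f := fun k (_ : k ≠ j) => P k) k (fun l => ij (l ▸ hk)) le_rfl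

lemma blocks [FiniteDimensional ℂ H] (h1 : SGeoL) (h2 : SGeoK) {D t : O} {κ : Type}
    {ω : κ → G.Ω} (hD : D * D = 1) (ht : t * t = 1) (hc : Commute D t)
    (hran : ∀ x, G.ov x = D ↔ x ∈ Set.range ω)
    (hr : ∀ i, 2 ≤ finrank ℂ (G.Φ (ω i))) (hfix : ∀ i, ∀ v ∈ G.Φ (ω i), π t v = v)
    (heig : ∀ v, π D v = v → v ∈ ⨆ i, G.Φ (ω i)) (hact : ∀ Y, G.ov Y = t → G.act D Y = Y) :
    ∃ w : κ → G.Ω, (∀ i, G.ov (w i) = t ∧ G.Φ (ω i) ≤ G.Φ (w i)) ∧
      ∀ Y, G.ov Y = t → ∃ i, w i = Y := by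
  have fD : IsOfFinOrder D := isOfFinOrder_iff_pow_eq_one.2 ⟨2, two_pos, by rw [pow_two, hD]⟩
  have ft : IsOfFinOrder t := isOfFinOrder_iff_pow_eq_one.2 ⟨2, two_pos, by rw [pow_two, ht]⟩
  have iD := ((h1 H O π G).1 D fD).2.1
  have it := ((h1 H O π G).1 t ft).2.1
  obtain ⟨M, m1, m2, m3⟩ := (h2 H O π G).1 D t fD ft hc
  have oω : ∀ i, G.ov (ω i) = D := fun i => (hran _).2 ⟨i, rfl⟩
  have nz : ∀ i, ∃ v ∈ G.Φ (ω i), v ≠ 0 := fun i => by
    refine (Submodule.ne_bot_iff _).1 fun e => ?_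
    have := hr i
    rw [e, finrank_bot] at this
    omega
  have ex : ∀ i, ∃ Y, G.ov Y = t ∧ G.Φ (ω i) ≤ G.Φ Y := fun i => by
    obtain ⟨v, hv, v0⟩ := nz i
    have a1 : G.act t (ω i) = ω i := by
      refine om_eq G iD ?_ (oω i) v0 ?_ hv
      · rw [G.ov_act, oω, ← hc.eq, mul_inv_cancel_right]
      · have := G.Φ_act t _ v hv
        rwa [hfix i v hv] at this
    obtain ⟨Y, hY, k⟩ := m1 _ (oω i) a1 (by
      rw [tr_scalar (c := 1) fun v hv => by rw [hfix i v hv, one_smul], one_mul]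
      have := hr i
      intro e
      have e' : finrank ℂ (G.Φ (ω i)) = 1 := by exact_mod_cast e
      omega)
    exact ⟨Y, hY, m3 _ _ (oω i) k (hfix i)⟩
  choose w hw1 hw2 using ex
  refine ⟨w, fun i => ⟨hw1 i, hw2 i⟩, fun Y hY => ?_⟩
  by_contra no
  have no' : ∀ i, w i ≠ Y := fun i e => no ⟨i, e⟩
  have neg : ∀ v ∈ G.Φ Y, π D v = (-1 : ℂ) • v := fun v hv => by
    have k : π D v ∈ G.Φ Y := by
      have := G.Φ_act D _ v hv
      rwa [hact Y hY] at this
    have z : v + π D v = 0 := by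
      refine om_zero G it (P := fun i => G.Φ (ω i)) (w := w) (fun i => ⟨hw1 i, hw2 i⟩) hY
        (add_mem hv k) ?_
      have : v + π D v ∈ ⨆ i, G.Φ (ω i) := heig _ (by
        rw [map_add, ← End.mul_apply, ← map_mul, hD, map_one, End.one_apply, add_comm])
      refine SetLike.le_def.1 (iSup_le fun i => ?_) this
      exact le_iSup₂_of_le (f := fun k (_ : w k ≠ Y) => G.Φ (ω k)) i (no' i) le_rfl
    rw [neg_one_smul]
    exact (neg_eq_of_add_eq_zero_right z).symm
  obtain ⟨x, hx, k⟩ := m2 Y hY (hact Y hY) (by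
    rw [tr_scalar neg]
    intro e
    have e' : ((finrank ℂ (G.Φ Y) + 1 : ℕ) : ℂ) = 0 := by
      push_cast
      rw [← e]
      ring
    exact Nat.succ_ne_zero _ (Nat.cast_eq_zero.1 e'))
  obtain ⟨i, rfl⟩ := (hran x).1 hx
  obtain ⟨v, hv, v0⟩ := nz i
  exact no' i (om_eq G it (hw1 i) hY v0 (hw2 i hv) (m3 _ _ hx k (hfix i) hv))

end lin

section geo
variable {ι O H : Type} [Fintype ι] [DecidableEq ι] [Group O] [AddCommGroup H] [Module ℂ H]
  [FiniteDimensional ℂ H] {π : O →* End ℂ H} {G : Geo π} {ψ : A ι →* O} {s : ι → ι → End ℂ H}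

lemma three (h1 : SGeoL) (n5 : 5 ≤ Fintype.card ι) (hF0 : F0 (π.comp ψ) s) (hF1 : F1 π G ψ)
    (hZ : ∀ a, finrank ℂ (Za (π.comp ψ) a) = 1) {c d : ι} (cd : c ≠ d)
    (h0 : Z0 (π.comp ψ) ≤ G.Φt (ψ (ep c * ep d))) :
    Nat.card {Y // G.ov Y = ψ (ep c * ep d)} = 3 := by
  obtain ⟨hind, -, -, -, hcd, -⟩ := hF0
  obtain ⟨f1, -, f3⟩ := hF1 c d cd
  obtain ⟨em, ep'⟩ := hcd c d cd
  have ht : ψ (ep c * ep d) * ψ (ep c * ep d) = 1 := by
    rw [← map_mul, mul_assoc, ← mul_assoc (ep d), ← e_comm c d, mul_assoc, e_sq, mul_one, e_sq,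
      map_one]
  have ft : IsOfFinOrder (ψ (ep c * ep d)) :=
    isOfFinOrder_iff_pow_eq_one.2 ⟨2, two_pos, by rw [pow_two, ht]⟩
  have e1 : End.eigenspace (π (ψ (ep c * ep d))) 1 = G.Φt (ψ (ep c * ep d)) := by
    refine le_antisymm ?_ (iSup₂_le fun Y hY v hv => ?_)
    · have ep'' : End.eigenspace (π (ψ (ep c * ep d))) 1 = _ := ep'
      refine ep''.trans_le (sup_le h0 (iSup₂_le fun a ha v hv => ?_))
      obtain ⟨b, hb⟩ := fresh [a, c, d] (by simp only [List.length]; omega)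
      simp only [List.mem_cons, List.not_mem_nil, or_false, not_or] at hb
      have m : v ∈ End.eigenspace (π (ψ (ep c * ep d))) 1 := by
        rw [ep'']
        exact Submodule.mem_sup_right (Submodule.mem_iSup_of_mem a (Submodule.mem_iSup_of_mem ha hv))
      have k := ((f1 a b (by simp [ha.1, ha.2, hb.2.1, hb.2.2, cd, Ne.symm hb.1])).2 v m).2
      have l : π (ψ (ep a * ep b)) v = (-1 : ℂ) • v := End.mem_eigenspace_iff.1
        ((Submodule.mem_iInf _).1 ((Submodule.mem_iInf _).1 hv b) hb.1)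
      rw [l] at k
      have := (G.Φt (ψ (ep c * ep d))).smul_mem (-1 / 2 : ℂ) k
      rwa [show (-1 / 2 : ℂ) • ((-1 : ℂ) • v - v) = v by module] at this
    · rw [End.mem_eigenspace_iff, one_smul]
      exact (((h1 H O π G).1 _ ft).2.2 Y hY).2 v hv
  have e2 : finrank ℂ (End.eigenspace (π (ψ (ep c * ep d))) (-1)) = 2 := by
    have em' : End.eigenspace (π (ψ (ep c * ep d))) (-1) = _ := em
    have dj : Za (π.comp ψ) c ⊓ Za (π.comp ψ) d = ⊥ :=
      (hind.pairwiseDisjoint (show some c ≠ some d from fun e => cd (Option.some.inj e))).eq_bot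
    have := Submodule.finrank_sup_add_finrank_inf_eq (Za (π.comp ψ) c) (Za (π.comp ψ) d)
    rw [dj, finrank_bot, hZ, hZ] at this
    rw [em']
    omega
  rw [e1, e2] at f3
  omega

lemma key (h1 : SGeoL) (h2 : SGeoK) (h3 : SSg) (hFH : FH (π.comp ψ) s) (hF0 : F0 (π.comp ψ) s)
    (hF1 : F1 π G ψ) (hZ : ∀ a, finrank ℂ (Za (π.comp ψ) a) = 1) {ω : Option ι → G.Ω}
    (hran : ∀ x, G.ov x = ψ (epJ univ) ↔ x ∈ Set.range ω)
    (hact : ∀ σ i, G.act (ψ (cage σ)) (ω i) = ω (σ i))
    (hsup : ⨆ i, G.Φ (ω i) = Z0 (π.comp ψ)) (hr : ∀ i, 2 ≤ finrank ℂ (G.Φ (ω i)))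
    {a b c d : ι} (nd : [a, b, c, d].Nodup) (j : Option ι) (jc : j ≠ some c) (jd : j ≠ some d) :
    (∀ v ∈ G.Φ (ω (some c)), s a b v ∈ ⨆ k, ⨆ (_ : k ≠ j), G.Φ (ω k)) ∧
      ∀ v ∈ G.Φ (ω j), s a b v ∈ ⨆ k, ⨆ (_ : k ≠ some c), G.Φ (ω k) := by
  obtain ⟨h12, hev, -, ⟨-, hsg, -, -⟩, -, -⟩ := hFH
  have nd' := nd
  simp only [List.nodup_cons, List.mem_cons, List.not_mem_nil, or_false, not_or] at nd'
  obtain ⟨⟨ab, ac, ad⟩, ⟨bc, bd⟩, cd, -⟩ := nd'
  have hD1 := hF0.2.2.1
  have hkeep := hF0.2.2.2.2.2.2.1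
  obtain ⟨f1, f2, -⟩ := hF1 c d cd
  have ht : ψ (ep c * ep d) * ψ (ep c * ep d) = 1 := by
    rw [← map_mul, mul_assoc, ← mul_assoc (ep d), ← e_comm c d, mul_assoc, e_sq, mul_one, e_sq,
      map_one]
  have ft : IsOfFinOrder (ψ (ep c * ep d)) :=
    isOfFinOrder_iff_pow_eq_one.2 ⟨2, two_pos, by rw [pow_two, ht]⟩
  obtain ⟨fin, it, fx⟩ := (h1 H O π G).1 _ ft
  have inZ : ∀ i, G.Φ (ω i) ≤ Z0 (π.comp ψ) := fun i => hsup ▸ le_iSup (fun i => G.Φ (ω i)) i
  obtain ⟨w, hw, onto⟩ := blocks G h1 h2 (D := ψ (epJ univ)) (t := ψ (ep c * ep d))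
    (by rw [← map_mul, J_sq, map_one]) ht
    (Commute.map (Commute.mul_right (J_e univ c) (J_e univ d)) ψ) hran hr
    (fun i v hv => by
      have := End.mem_eigenspace_iff.1
        ((Submodule.mem_iInf _).1 ((Submodule.mem_iInf _).1 (inZ i hv) c) d)
      rwa [one_smul] at this)
    (fun v hv => by
      rw [hsup, ← hD1, End.mem_eigenspace_iff, one_smul]
      exact hv)
    (fun Y hY => by
      have hd : d ∈ univ.erase c := mem_erase.2 ⟨Ne.symm cd, mem_univ _⟩
      obtain ⟨k, hk⟩ := hev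
      have m := J_even ((MulAction.stabilizer (Perm G.Ω) Y).comap (G.act.comp ψ))
        ((univ.erase c).erase d) (fun x hx y hy xy => by
          simp only [mem_erase] at hx hy
          exact ((f1 x y (by simp [xy, hx.1, hx.2.1, hy.1, hy.2.1, cd])).1 Y hY).2) (k - 1) _
        subset_rfl (by
          rw [card_erase_of_mem hd, card_erase_of_mem (mem_univ _), card_univ]
          omega)
      have m' : G.act (ψ (epJ ((univ.erase c).erase d))) Y = Y := m
      rw [← insert_erase (mem_univ c), J_ins (notMem_erase _ _), ← insert_erase hd,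
        J_ins (notMem_erase _ _), ← mul_assoc, map_mul, map_mul, Perm.mul_apply, m']
      exact (fx Y hY).1)
  have nz : ∀ i, ∃ v ∈ G.Φ (ω i), v ≠ 0 := fun i => by
    refine (Submodule.ne_bot_iff _).1 fun e => ?_
    have := hr i
    rw [e, finrank_bot] at this
    omega
  have eqv : ∀ σ : Perm ι, ep (σ c) * ep (σ d) = ep c * ep d → ∀ i,
      w (σ.optionCongr i) = G.act (ψ (pm σ)) (w i) := fun σ e i => by
    obtain ⟨v, hv, v0⟩ := nz i
    refine om_eq G it (hw _).1 ?_ (unit_ne (π := π) (ψ (pm σ)) v0) ((hw _).2 ?_)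
      (G.Φ_act _ _ v ((hw i).2 hv))
    · rw [G.ov_act, (hw i).1, ← map_mul, ← mul_assoc, p_e, mul_assoc, p_e, ← mul_assoc, e, map_mul,
        mul_inv_cancel_right]
    · rw [← hact, cage_opt]
      exact G.Φ_act _ _ v hv
  have one : ∀ x, x ≠ c → x ≠ d → w (some x) = w (some a) := fun x xc xd => by
    obtain ⟨e, he⟩ := fresh [a, x, c, d] (by simp only [List.length]; omega)
    simp only [List.mem_cons, List.not_mem_nil, or_false, not_or] at he
    obtain ⟨ea, ex, ec, ed⟩ := he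
    have sc : (swap e x * swap a e) c = c := by
      rw [Perm.mul_apply, swap_apply_of_ne_of_ne (Ne.symm ac) (Ne.symm ec),
        swap_apply_of_ne_of_ne (Ne.symm ec) (Ne.symm xc)]
    have sd : (swap e x * swap a e) d = d := by
      rw [Perm.mul_apply, swap_apply_of_ne_of_ne (Ne.symm ad) (Ne.symm ed),
        swap_apply_of_ne_of_ne (Ne.symm ed) (Ne.symm xd)]
    have := eqv (swap e x * swap a e) (by rw [sc, sd]) (some a)
    rw [f2 _ (by rw [map_mul, Perm.sign_swap ex, Perm.sign_swap (Ne.symm ea)]; rfl) sc sd _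
      (hw _).1] at this
    simpa using this
  have ne : w (some c) ≠ w j := fun e => by
    have q := eqv (swap c d) (by rw [swap_apply_left, swap_apply_right, e_comm])
    have q1 := q (some c)
    have q2 := q j
    have jj : (swap c d).optionCongr j = j := by
      cases j with
      | none => rfl
      | some x =>
        have xc : x ≠ c := fun l => jc (congrArg some l)
        have xd : x ≠ d := fun l => jd (congrArg some l)
        exact congrArg some (swap_apply_of_ne_of_ne xc xd)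
    rw [jj, ← e, ← q1] at q2
    have q3 : w (some c) = w (some d) := by simpa using q2
    have two : ∀ i, i ≠ some c → i ≠ some d → w i = w none ∨ w i = w (some a) := fun i ic id => by
      cases i with
      | none => exact Or.inl rfl
      | some x => exact Or.inr (one x (fun l => ic (congrArg some l)) fun l => id (congrArg some l))
    have all : ∀ i, w i = w none ∨ w i = w (some a) := fun i => by
      by_cases ic : i = some c
      · rw [ic, e]
        exact two j jc jd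
      by_cases id : i = some d
      · rw [id, ← q3, e]
        exact two j jc jd
      exact two i ic id
    have le := Nat.card_le_card_of_surjective (α := Bool) (β := {Y // G.ov Y = ψ (ep c * ep d)})
      (fun x => cond x ⟨w none, (hw _).1⟩ ⟨w (some a), (hw _).1⟩) fun Y => by
        obtain ⟨i, hi⟩ := onto Y.1 Y.2
        rcases all i with l | l
        · exact ⟨true, Subtype.ext (l.symm.trans hi)⟩
        · exact ⟨false, Subtype.ext (l.symm.trans hi)⟩
    rw [three h1 (by omega) hF0 hF1 hZ cd (hsup ▸ iSup_le fun i => (hw i).2.trans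
      (le_iSup₂_of_le (f := fun Y (_ : G.ov Y = ψ (ep c * ep d)) => G.Φ Y) (w i) (hw i).1 le_rfl)),
      Nat.card_eq_fintype_card, Fintype.card_bool] at le
    omega
  have kp : ∀ i, Keeps (s a b) (G.Φ (w i)) := fun i =>
    ((h3 H _).2 _ (hsg a b ab).1).2.2.2.1 _ fun v hv => by
      have := G.Φ_act (ψ (rh a b)) _ v hv
      rwa [((f1 a b nd).1 _ (hw i).1).1] at this
  exact ⟨fun v hv => noj G it hw (Ne.symm ne) (kp _ v ((hw _).2 hv))
      (hsup ▸ hkeep a b ab v (inZ _ hv)),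
    fun v hv => noj G it hw ne (kp _ v ((hw _).2 hv)) (hsup ▸ hkeep a b ab v (inZ _ hv))⟩

end geo

theorem sf4 (h1 : SGeoL) (h2 : SGeoK) (h3 : SSg) (h4 : SMat) (h5 : SF4b) : SF4 := by
  intro ι O H _ _ _ _ _ _ π G ψ s _ hFH hF0 hF1 hF3
  obtain ⟨hZ, hΦ, ω, hinj, hran, hact⟩ := hF3
  have K := fun hsup hr a b c d => key (a := a) (b := b) (c := c) (d := d) h1 h2 h3 hFH hF0 hF1 hZ
    hran hact hsup hr
  obtain ⟨h12, hev, -, ⟨hSt, -, hsc, -⟩, -, -⟩ := hFH
  obtain ⟨-, -, -, -, -, -, hkeep, hcage, -, -⟩ := hF0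
  have fD : IsOfFinOrder (ψ (epJ univ)) :=
    isOfFinOrder_iff_pow_eq_one.2 ⟨2, two_pos, by rw [pow_two, ← map_mul, J_sq, map_one]⟩
  have oω : ∀ i, G.ov (ω i) = ψ (epJ univ) := fun i => (hran _).2 ⟨i, rfl⟩
  have hP : iSupIndep fun i => G.Φ (ω i) :=
    ((h1 H O π G).1 _ fD).2.1.comp (f := fun i => (⟨ω i, oω i⟩ : {x // G.ov x = ψ (epJ univ)}))
      fun i j e => hinj (congrArg Subtype.val e)
  have hsup : ⨆ i, G.Φ (ω i) = Z0 (π.comp ψ) := by
    rw [← hΦ]
    refine le_antisymm (iSup_le fun i => le_iSup₂_of_le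
      (f := fun Y (_ : G.ov Y = ψ (epJ univ)) => G.Φ Y) (ω i) (oω i) le_rfl)
      (iSup₂_le fun Y hY => ?_)
    obtain ⟨i, rfl⟩ := (hran Y).1 hY
    exact le_iSup (fun i => G.Φ (ω i)) i
  have inZ : ∀ i, G.Φ (ω i) ≤ Z0 (π.comp ψ) := fun i => hsup ▸ le_iSup (fun i => G.Φ (ω i)) i
  have mv : ∀ σ i, ∀ v ∈ G.Φ (ω i), π (ψ (cage σ)) v ∈ G.Φ (ω (σ i)) := fun σ i v hv =>
    hact σ i ▸ G.Φ_act _ _ v hv
  have rk : ∀ i j, finrank ℂ (G.Φ (ω i)) ≤ finrank ℂ (G.Φ (ω j)) := fun i j => by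
    have m : ∀ v ∈ G.Φ (ω i), π (ψ (cage (swap i j))) v ∈ G.Φ (ω j) := fun v hv => by
      have := mv (swap i j) i v hv
      rwa [swap_apply_left] at this
    refine LinearMap.finrank_le_finrank_of_injective (f := (π (ψ (cage (swap i j)))).restrict m) ?_
    refine (injective_iff_map_eq_zero _).2 fun v e => Subtype.ext ?_
    by_contra v0
    exact unit_ne (π := π) _ v0 (congrArg Subtype.val e)
  have ez : ∀ a b, ∀ v ∈ Z0 (π.comp ψ), π (ψ (ep a)) v = π (ψ (ep b)) v := fun a b v hv => by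
    have := End.mem_eigenspace_iff.1
      ((Submodule.mem_iInf _).1 ((Submodule.mem_iInf _).1 hv a) b)
    rw [one_smul] at this
    have e : π (ψ (ep a * ep b)) v = v := this
    conv_lhs => rw [← e]
    rw [← End.mul_apply, ← map_mul, ← map_mul, ← mul_assoc, e_sq, one_mul]
  suffices h : G.Φ (ω none) = ⊥ by
    rw [← hsup, iSup_eq_bot]
    intro i
    have := rk i none
    rw [h, finrank_bot] at this
    exact Submodule.finrank_eq_zero.1 (by omega)
  by_contra hne
  obtain ⟨a₀, -⟩ := fresh ([] : List ι) (by simp only [List.length]; omega)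
  have AB : (∀ a b c, [a, b, c].Nodup → Keeps (s a b) (G.Φ (ω (some c)))) ∧
      ∀ a b, a ≠ b → ∀ v ∈ G.Φ (ω (some b)),
        s a b v ∈ G.Φ (ω none) ⊔ G.Φ (ω (some a)) ⊔ G.Φ (ω (some b)) := by
    by_cases r1 : finrank ℂ (G.Φ (ω none)) ≤ 1
    · obtain ⟨h, hh⟩ := hev
      have le : finrank ℂ (Z0 (π.comp ψ)) ≤ Fintype.card ι + 1 := by
        rw [← hsup]
        refine (rank_sup_le _).trans ((sum_le_card_nsmul _ _ 1 fun i _ =>
          (rk i none).trans r1).trans ?_)
        simp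
      have tr := h4 H ι s (Z0 (π.comp ψ)) h (by omega) (by omega) hSt hkeep (by
        have x : h < 2 ^ h := Nat.lt_two_pow_self
        have y := Nat.mul_le_mul (show h ≤ 2 ^ h - 1 by omega) (show 5 ≤ 2 ^ h - 2 by omega)
        omega)
      refine ⟨fun a b c nd v hv => ?_, fun a b ab v hv => ?_⟩
      · rw [tr a b (fun e => by simp [e] at nd) v (inZ _ hv)]
        exact hv
      · rw [tr a b ab v (inZ _ hv)]
        exact Submodule.mem_sup_right hv
    · have K' := K hsup fun i => (show 2 ≤ _ by omega).trans (rk none i)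
      refine ⟨fun a b c nd v hv => ?_, fun a b ab v hv => ?_⟩
      · have nd' := nd
        simp only [List.nodup_cons, List.mem_cons, List.not_mem_nil, or_false, not_or] at nd'
        refine cut hP (hsup ▸ hkeep a b nd'.1.1 v (inZ _ hv)) _ fun k => ?_
        by_cases kc : k = some c
        · exact Or.inl (kc ▸ le_rfl)
        obtain ⟨d, hd⟩ := fresh [a, b, c, k.getD a] (by simp only [List.length]; omega)
        simp only [List.mem_cons, List.not_mem_nil, or_false, not_or] at hd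
        refine Or.inr ((K' a b c d ?_ k kc fun e => hd.2.2.2 (by rw [e]; rfl)).1 v hv)
        simp [nd'.1.1, nd'.1.2, nd'.2.1, Ne.symm hd.1, Ne.symm hd.2.1, Ne.symm hd.2.2.1]
      · refine cut hP (hsup ▸ hkeep a b ab v (inZ _ hv)) _ fun k => ?_
        cases k with
        | none => exact Or.inl (le_sup_of_le_left le_sup_left)
        | some c =>
          by_cases ca : c = a
          · exact Or.inl (ca ▸ le_sup_of_le_left le_sup_right)
          by_cases cb : c = b
          · exact Or.inl (cb ▸ le_sup_right)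
          obtain ⟨d, hd⟩ := fresh [a, b, c] (by simp only [List.length]; omega)
          simp only [List.mem_cons, List.not_mem_nil, or_false, not_or] at hd
          refine Or.inr ((K' a b c d ?_ (some b) (fun e => cb (Option.some.inj e).symm)
            fun e => hd.2.1 (Option.some.inj e).symm).2 v hv)
          simp [ab, Ne.symm ca, Ne.symm cb, Ne.symm hd.1, Ne.symm hd.2.1, Ne.symm hd.2.2]
  refine hne (h5 H ι s (π (ψ (ep a₀))) (fun i => G.Φ (ω i)) (by omega) hSt
    (by rw [← map_mul, ← map_mul, e_sq, map_one, map_one]) (fun a b ab => hsc a b a₀ ab) hP AB.1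
    AB.2 (fun a i v hv => ?_) ?_)
  · have m := mv (swap none (some a)) i v hv
    have e : π (ψ (cage (swap none (some a)))) v = π (ψ (ep a)) (sig s a v) := hcage a v (inZ _ hv)
    have k : sig s a v ∈ Z0 (π.comp ψ) := by
      refine List.prod_induction (fun f : End ℂ H => Keeps f (Z0 (π.comp ψ)))
        (fun f g hf hg x hx => hf _ (hg x hx)) (fun x hx => hx) (fun f hf => ?_) v (inZ _ hv)
      obtain ⟨b, hb, rfl⟩ := List.mem_map.1 hf
      exact hkeep b a (ne_of_mem_erase (mem_toList.1 hb))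
    rwa [e, ez a a₀ _ k] at m
  · have ex : ∀ i, ∃ j, ω j = G.act (ψ (ep a₀)) (ω i) := fun i => (hran _).1 (by
      rw [G.ov_act, oω, ← map_mul, ← J_e, map_mul, mul_inv_cancel_right])
    choose τ hτ using ex
    have zm : ∀ i, ∀ v ∈ G.Φ (ω i), π (ψ (ep a₀)) v ∈ G.Φ (ω (τ i)) := fun i v hv =>
      hτ i ▸ G.Φ_act _ _ v hv
    have τ0 : τ none = none := by
      obtain ⟨v, hv, v0⟩ := (Submodule.ne_bot_iff _).1 hne
      cases e : τ none with
      | none => rfl
      | some a =>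
        exfalso
        obtain ⟨b, hb⟩ := fresh [a] (by simp only [List.length]; omega)
        have m1 := mv (swap a b).optionCongr _ _ (zm none v hv)
        have m0 : π (ψ (cage (swap a b).optionCongr)) v ∈ G.Φ (ω none) :=
          mv (swap a b).optionCongr none v hv
        have m2 := zm none _ m0
        rw [cage_opt] at m0 m1 m2
        rw [← ez (swap a b a₀) a₀ _ (inZ _ m0), ← End.mul_apply, ← map_mul, ← map_mul, ← p_e,
          map_mul, map_mul, End.mul_apply] at m2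
        have := indep_eq hP (unit_ne _ (unit_ne _ v0)) m1 m2
        rw [e] at this
        simp at this hb
        exact hb this
    intro u hu
    refine Submodule.iSup_induction _ (motive := fun u => π (ψ (ep a₀)) u ∈ _) hu
      (fun a v hv => ?_) (by simp) fun x y hx hy => by
        rw [map_add]
        exact add_mem hx hy
    have m := zm _ v hv
    cases e : τ (some a) with
    | none =>
      have : ω (some a) = ω none := (G.act (ψ (ep a₀))).injective (by rw [← hτ, ← hτ, e, τ0])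
      exact absurd (hinj this) (by simp)
    | some b =>
      rw [e] at m
      exact Submodule.mem_iSup_of_mem b m

end Pool.Agent.MP_3ce0a0_al.H39
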