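import Pool.Agent.MP_3ce0a0_al.H79.Y3B

/-
The normal forms of a signed permutation system with the given counts.
-/

namespace Pool.Agent.MP_3ce0a0_al.H79.Y

open Equiv Module Pool.Agent.MP_3ce0a0_al.H79.X

namespace H39

variable {H : Type} [AddCommGroup H] [Module ℂ H] {P P' : WS (Fin 3) (GH H)}

/-- the rotations. -/
def rot (i : Fin 3) : Perm (Fin 3) := finRotate 3 ^ (i : ℕ)

lemma rot_zero (i : Fin 3) : rot i 0 = i := by revert i; decide

lemma rot_mul (p : Perm (Fin 3)) (i : Fin 3) :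
    (Perm.sign p = 1 ∧ p * rot i = rot (p i)) ∨
      (Perm.sign p ≠ 1 ∧ p * rot i = rot (p i) * swap 1 2) := by
  revert p i
  decide

lemma sum_sets {M : Type} [AddCommMonoid M] (f : Finset (Fin 3) → M) :
    ∑ I, f I = ∑ i, f {i} + ∑ i, f {i}ᶜ + f ∅ + f Finset.univ := by
  have h1 : (Finset.univ : Finset (Finset (Fin 3))) =
    {∅, {0}, {1}, {2}, {0}ᶜ, {1}ᶜ, {2}ᶜ, Finset.univ} := by decide
  conv_lhs => rw [h1]
  repeat rw [Finset.sum_insert (by decide)]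
  simp only [Finset.sum_singleton, Fin.sum_univ_three]
  abel

lemma dec (P : WS (Fin 3) (GH H)) (v : H) :
    v = ∑ i, pr P {i} v + ∑ i, pr P {i}ᶜ v + pr P ∅ v + pr P Finset.univ v :=
  (pr_sum v).symm.trans (sum_sets fun I => pr P I v)

lemma map_one' (p : Perm (Fin 3)) (i : Fin 3) :
    ({i} : Finset (Fin 3)).map p.toEmbedding = {p i} := by simp

lemma map_two' (p : Perm (Fin 3)) (i : Fin 3) :
    ({i}ᶜ : Finset (Fin 3)).map p.toEmbedding = {p i}ᶜ := by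
  revert p i
  decide

lemma back {E : Fin 3 → Finset (Fin 3)}
    (hE : ∀ (p : Perm (Fin 3)) i, (E i).map p.toEmbedding = E (p i)) {i : Fin 3} {v : H}
    (hv : v ∈ Se P (E i)) : ∃ w ∈ Se P (E 0), v = P.π (rot i) w := by
  refine ⟨P.π (rot i)⁻¹ v, ?_, by rw [← gmul, ← map_mul, mul_inv_cancel, map_one, gone]⟩
  have h := π_Se (rot i)⁻¹ hv
  rwa [hE, show (rot i)⁻¹ i = 0 from Perm.inv_eq_iff_eq.2 (rot_zero i).symm] at h

lemma vanish {E : Fin 3 → Finset (Fin 3)}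
    (hE : ∀ (p : Perm (Fin 3)) i, (E i).map p.toEmbedding = E (p i)) (h : Se P (E 0) = ⊥)
    (i : Fin 3) (v : H) : pr P (E i) v = 0 := by
  obtain ⟨w, hw, e⟩ := back hE (pr_mem (P := P) (E i) v)
  rw [h, Submodule.mem_bot] at hw
  rw [e, hw, map_zero]

lemma line {E : Fin 3 → Finset (Fin 3)}
    (hE : ∀ (p : Perm (Fin 3)) i, (E i).map p.toEmbedding = E (p i))
    (h : finrank ℂ (Se P (E 0)) = 1) : ∃ (e : Fin 3 → H) (σ : ℂ), (σ = 1 ∨ σ = -1) ∧
    (∀ i, e i ≠ 0 ∧ e i ∈ Se P (E i)) ∧ (∀ p i, P.π p (e i) = sg σ p • e (p i)) ∧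
    ∀ v, ∃ c : Fin 3 → ℂ, ∀ i, pr P (E i) v = c i • e i := by
  obtain ⟨⟨e, he⟩, h0, hs⟩ := finrank_eq_one_iff'.1 h
  have h0' : e ≠ 0 := fun k => h0 (Subtype.ext k)
  have hs' : ∀ w ∈ Se P (E 0), ∃ c : ℂ, w = c • e := fun w hw => by
    obtain ⟨c, hc⟩ := hs ⟨w, hw⟩
    exact ⟨c, (congrArg Subtype.val hc).symm⟩
  obtain ⟨σ, hσ⟩ := hs' (P.π (swap 1 2) e) (by
    have k := π_Se (swap 1 2) he
    rwa [hE, show swap (1 : Fin 3) 2 0 = 0 by decide] at k)
  have hq : σ * σ = 1 := by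
    have k := gap (π_swap_sq P 1 2) e
    rw [gmul, hσ, map_smul, hσ, smul_smul, gone] at k
    exact smul_left_injective ℂ h0' (k.trans (one_smul ℂ e).symm)
  refine ⟨fun i => P.π (rot i) e, σ, mul_self_eq_one_iff.1 hq, fun i => ⟨?_, ?_⟩, fun p i => ?_,
    fun v => ?_⟩
  · exact fun k => h0' ((P.π (rot i)).map_eq_zero_iff.1 k)
  · have k := π_Se (rot i) he
    rwa [hE, rot_zero] at k
  · rw [← gmul, ← map_mul]
    rcases rot_mul p i with ⟨k, l⟩ | ⟨k, l⟩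
    · rw [l, sg, if_pos k, one_smul]
    · rw [l, sg, if_neg k, map_mul, gmul, hσ, map_smul]
  · have k : ∀ i, ∃ c : ℂ, pr P (E i) v = c • P.π (rot i) e := fun i => by
      obtain ⟨w, hw, l⟩ := back hE (pr_mem (P := P) (E i) v)
      obtain ⟨c, rfl⟩ := hs' w hw
      exact ⟨c, by rw [l, map_smul]⟩
    choose c hc using k
    exact ⟨c, hc⟩

lemma swap_fix {a b c : Fin 3} (d : D3 a b c) : swap a b c = c :=
  swap_apply_of_ne_of_ne d.2.1 d.2.2

lemma tp_one {a b c : Fin 3} {v : H} (hv : v ∈ Se P {c}) :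
    tp P a b v = -P.π (swap a b) v := by rw [tp, gmul, DD_one hv, map_neg]

lemma tp_two {a b c : Fin 3} {v : H} (hv : v ∈ Se P {c}ᶜ) :
    tp P a b v = P.π (swap a b) v := by rw [tp, gmul, DD_two hv]

lemma shapeA (h1 : finrank ℂ (Se P {0}) = 1) (h2 : Se P {0}ᶜ = ⊥)
    (h : ∀ a b c, D3 a b c → (∀ v ∈ Se P {c} ⊔ Se P {c}ᶜ, tp P a b v = v) ∨
      ∀ h ∈ Se P ∅ ⊔ Se P Finset.univ, tp P a b h = h) : ∃ e σ, DA P e σ := by
  obtain ⟨e, σ, k1, k2, k3, k4⟩ := line (E := fun i => {i}) map_one' h1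
  refine ⟨e, σ, k1, k2, k3, fun v => ?_, fun hσ a b hab => ?_⟩
  · obtain ⟨c, hc⟩ := k4 v
    refine ⟨c, _, pr_mem ∅ v, _, pr_mem Finset.univ v, (dec P v).trans ?_⟩
    simp only [hc, vanish (E := fun i => {i}ᶜ) map_two' h2, Finset.sum_const_zero, add_zero]
  · obtain ⟨c, d⟩ := D3.ex hab
    refine (h a b c d).resolve_left fun k => (k2 c).1 (half ?_)
    have l := k (e c) (Submodule.mem_sup_left (k2 c).2)
    rw [tp_one (k2 c).2, k3, sg_swap σ hab, hσ, one_smul, swap_fix d] at l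
    exact l.symm

lemma shapeB (h2 : Se P {0}ᶜ = ⊥) (h3 : Se P ∅ = ⊥) (h4 : Se P Finset.univ = ⊥)
    (h : ∀ a b c, D3 a b c → ∀ v ∈ Se P {c} ⊔ Se P {c}ᶜ, tp P a b v = v) : DB P ⊤ := by
  refine ⟨fun v _ => ?_, fun a b c d v hv => ?_⟩
  · have k3 : pr P ∅ v = 0 := by simpa [h3] using pr_mem (P := P) ∅ v
    have k4 : pr P Finset.univ v = 0 := by simpa [h4] using pr_mem (P := P) Finset.univ v
    rw [dec P v]
    simp only [k3, k4, vanish (E := fun i => {i}ᶜ) map_two' h2, Finset.sum_const_zero, add_zero]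
    exact Submodule.sum_mem _ fun i _ => Submodule.mem_iSup_of_mem i (pr_mem _ v)
  · have l := h a b c d v (Submodule.mem_sup_left hv.2)
    rw [tp_one hv.2] at l
    exact neg_eq_iff_eq_neg.1 l

lemma shapeC (h1 : finrank ℂ (Se P {0}) = 1) (h2 : finrank ℂ (Se P {0}ᶜ) = 1)
    (h3 : Se P ∅ = ⊥) (h4 : Se P Finset.univ = ⊥)
    (h : ∀ a b c, D3 a b c → ∀ v ∈ Se P {c} ⊔ Se P {c}ᶜ, tp P a b v = v) :
    ∃ e f, DC P e f := by
  obtain ⟨e, σ, -, k2, k3, k4⟩ := line (E := fun i => {i}) map_one' h1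
  obtain ⟨f, τ, -, l2, l3, l4⟩ := line (E := fun i => {i}ᶜ) map_two' h2
  have d : D3 0 1 2 := by unfold D3; decide
  have hσ : σ = -1 := by
    have l := h 0 1 2 d (e 2) (Submodule.mem_sup_left (k2 2).2)
    rw [tp_one (k2 2).2, k3, sg_swap σ d.1, swap_fix d, neg_eq_iff_eq_neg] at l
    exact smul_left_injective ℂ (k2 2).1 (l.trans (neg_one_smul ℂ _).symm)
  have hτ : τ = 1 := by
    have l := h 0 1 2 d (f 2) (Submodule.mem_sup_right (l2 2).2)
    rw [tp_two (l2 2).2, l3, sg_swap τ d.1, swap_fix d] at l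
    exact smul_left_injective ℂ (l2 2).1 (l.trans (one_smul ℂ _).symm)
  subst hσ hτ
  refine ⟨e, f, k2, l2, k3, fun p i => by rw [l3, sg, ite_self, one_smul], fun v => ?_⟩
  obtain ⟨c, hc⟩ := k4 v
  obtain ⟨c', hc'⟩ := l4 v
  have m3 : pr P ∅ v = 0 := by simpa [h3] using pr_mem (P := P) ∅ v
  have m4 : pr P Finset.univ v = 0 := by simpa [h4] using pr_mem (P := P) Finset.univ v
  refine ⟨c, c', (dec P v).trans ?_⟩
  simp only [hc, hc', m3, m4, add_zero]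

lemma tw_Se (t : Tw P P') (I : Finset (Fin 3)) : Se P' I = Se P Iᶜ := by
  ext v
  simp only [mem_Se, t.1, Finset.mem_compl]
  refine forall_congr' fun a => ?_
  by_cases k : a ∈ I <;> simp [k, neg_eq_iff_eq_neg]

lemma tw_tp (t : Tw P P') {a b : Fin 3} (h : a ≠ b) (v : H) : tp P' a b v = tp P a b v := by
  simp only [tp, DD, gmul, t.1, t.2, sg_swap _ h, map_neg, neg_neg, neg_smul, one_smul]

end H39

open H39 in
theorem snrm : SNrm := by
  intro H _ _ _ P P' t h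
  have z : ∀ I, finrank ℂ (Se P I) = 0 → Se P I = ⊥ := fun I => Submodule.finrank_eq_zero.1
  rcases h with ⟨h1, h2⟩ | ⟨h1, h3, h4, h2⟩
  · rcases Nat.add_eq_one_iff.1 h1 with ⟨k1, k2⟩ | ⟨k1, k2⟩
    · refine Or.inr (Or.inl (shapeA (by rwa [tw_Se t]) (by rw [tw_Se t, compl_compl, z _ k1])
        fun a b c d => ?_))
      simp only [tw_Se t, tw_tp t d.1, compl_compl, Finset.compl_empty, Finset.compl_univ]
      rw [sup_comm, sup_comm (Se P Finset.univ)]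
      exact h2 a b c d
    · exact Or.inl (shapeA k1 (z _ k2) h2)
  · have hne : (⊤ : Submodule ℂ H) ≠ ⊥ := fun k => by
      have l : ∀ I, Se P I = ⊥ := fun I => le_bot_iff.1 (le_top.trans k.le)
      rw [l, l, finrank_bot] at h1
      omega
    obtain k | k | k : finrank ℂ (Se P {0}) = 0 ∨ finrank ℂ (Se P {0}ᶜ) = 0 ∨
        finrank ℂ (Se P {0}) = 1 ∧ finrank ℂ (Se P {0}ᶜ) = 1 := by omega
    · refine Or.inr (Or.inr (Or.inr ⟨hne, Or.inr (shapeB (by rw [tw_Se t, compl_compl, z _ k])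
        (by rwa [tw_Se t, Finset.compl_empty]) (by rwa [tw_Se t, Finset.compl_univ])
        fun a b c d => ?_)⟩))
      simp only [tw_Se t, tw_tp t d.1, compl_compl]
      rw [sup_comm]
      exact h2 a b c d
    · exact Or.inr (Or.inr (Or.inr ⟨hne, Or.inl (shapeB (z _ k) h3 h4 h2)⟩))
    · exact Or.inr (Or.inr (Or.inl (shapeC k.1 k.2 h3 h4 h2)))

end Pool.Agent.MP_3ce0a0_al.H79.Y
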